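import Pool.Agent.W96.CL.Stm

/-!
# CL-TSUM: the total turning
-/

open Polynomial Filter Topology

namespace W96CL

namespace TSUMaux

theorem neg_om_sq : -(om ^ 2) = Complex.exp ((Real.pi / 3 : ℝ) * Complex.I) := by
  rw [Complex.exp_mul_I, ← Complex.ofReal_cos, ← Complex.ofReal_sin, Real.cos_pi_div_three,
    Real.sin_pi_div_three]
  have h3 : Real.sqrt 3 ^ 2 = 3 := Real.sq_sqrt (by norm_num)
  apply Complex.ext
  · simp [om, pow_two]
    nlinarith
  · simp [om, pow_two]
    ring

theorem arg_rot {z : ℂ} (hz : z ≠ 0) (θ : ℝ) (hθ : θ ∈ Set.Ioc (-Real.pi) Real.pi)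
    (k : ℤ) (h : θ = Real.pi / 3 + z.arg + k * (2 * Real.pi)) : (-(om ^ 2 * z)).arg = θ := by
  have h1 : -(om ^ 2 * z) = (‖z‖ : ℂ) * Complex.exp (θ * Complex.I) := by
    rw [← neg_mul, neg_om_sq]
    conv_lhs => rw [← Complex.norm_mul_exp_arg_mul_I z]
    have h2 : Complex.exp ((θ : ℂ) * Complex.I) =
        Complex.exp ((Real.pi / 3 : ℝ) * Complex.I) * Complex.exp (z.arg * Complex.I) := by
      rw [← Complex.exp_add, h]
      push_cast
      have : ((Real.pi : ℂ) / 3 + z.arg + k * (2 * Real.pi)) * Complex.I =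
          ((Real.pi : ℂ) / 3 * Complex.I + z.arg * Complex.I) + k * (2 * Real.pi * Complex.I) := by
        ring
      rw [this, Complex.exp_add, Complex.exp_int_mul_two_pi_mul_I, mul_one]
    rw [h2]; ring
  rw [h1, Complex.exp_mul_I]
  exact Complex.arg_mul_cos_add_sin_mul_I (norm_pos_iff.2 hz) hθ

theorem arg_small {z : ℂ} (hz : z ≠ 0) (h : z.arg ≤ 2 * Real.pi / 3) :
    (-(om ^ 2 * z)).arg = Real.pi / 3 + z.arg := by
  have := Complex.neg_pi_lt_arg z
  have := Real.pi_pos
  refine arg_rot hz _ ⟨by linarith, by linarith⟩ 0 (by simp)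

theorem arg_big {z : ℂ} (hz : z ≠ 0) (h : 2 * Real.pi / 3 < z.arg) :
    (-(om ^ 2 * z)).arg = z.arg - 5 * Real.pi / 3 := by
  have := Complex.arg_le_pi z
  have := Real.pi_pos
  refine arg_rot hz _ ⟨by linarith, by linarith⟩ (-1) (by push_cast; ring)

theorem pair {z : ℂ} (hz : z ≠ 0) (h : |z.arg| ≠ 2 * Real.pi / 3) :
    (-(om ^ 2 * z)).arg + (-(om ^ 2 * (starRingEnd ℂ z))).arg =
      2 * Real.pi / 3 - if 2 * Real.pi / 3 < |z.arg| then 2 * Real.pi else 0 := by
  have hp := Real.pi_pos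
  have hz' : (starRingEnd ℂ) z ≠ 0 := by simpa using hz
  have h1 := Complex.neg_pi_lt_arg z
  have h2 := Complex.arg_le_pi z
  by_cases hpi : z.arg = Real.pi
  · have hc : ((starRingEnd ℂ) z).arg = Real.pi := by rw [Complex.arg_conj, if_pos hpi]
    rw [arg_big hz (by rw [hpi]; linarith), arg_big hz' (by rw [hc]; linarith), hc, hpi,
      abs_of_pos hp, if_pos (by linarith)]
    ring
  · have hc : ((starRingEnd ℂ) z).arg = -z.arg := by rw [Complex.arg_conj, if_neg hpi]
    rcases lt_or_gt_of_ne h with hl | hg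
    · have h3 := abs_lt.1 hl
      rw [arg_small hz h3.2.le, arg_small hz' (by rw [hc]; linarith [h3.1]), hc,
        if_neg (not_lt.2 hl.le)]
      ring
    · rw [if_pos hg]
      rcases lt_abs.1 hg with h4 | h4
      · rw [arg_big hz h4, arg_small hz' (by rw [hc]; linarith), hc]
        ring
      · rw [arg_small hz (by linarith), arg_big hz' (by rw [hc]; exact h4), hc]
        ring

theorem conj_roots (Q : ℝ[X]) :
    ((Q.map (algebraMap ℝ ℂ)).roots).map (starRingEnd ℂ) = (Q.map (algebraMap ℝ ℂ)).roots := by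
  have h := roots_map_of_injective_of_card_eq_natDegree (p := Q.map (algebraMap ℝ ℂ))
    (f := starRingEnd ℂ) (RingHom.injective _) IsAlgClosed.card_roots_eq_natDegree
  rw [h, Polynomial.map_map]
  congr 2
  ext x
  simp

theorem sum_pair (R : Multiset ℂ) (hR : ∀ z ∈ R, z ≠ 0 ∧ |z.arg| ≠ 2 * Real.pi / 3) :
    (R.map fun ξ => (-(om ^ 2 * ξ)).arg).sum +
      (R.map fun ξ => (-(om ^ 2 * (starRingEnd ℂ ξ))).arg).sum =
    2 * Real.pi / 3 * Multiset.card R -
      2 * Real.pi * (R.countP fun ξ => 2 * Real.pi / 3 < |ξ.arg|) := by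
  induction R using Multiset.induction_on with
  | empty => simp
  | cons a s ih =>
    have h1 := ih (fun z hz => hR z (Multiset.mem_cons_of_mem hz))
    have h2 := hR a (Multiset.mem_cons_self a s)
    have h3 := pair h2.1 h2.2
    rw [Multiset.map_cons, Multiset.map_cons, Multiset.sum_cons, Multiset.sum_cons,
      Multiset.card_cons, Multiset.countP_cons]
    push_cast
    split_ifs at h3 ⊢ with h4
    · linarith
    · linarith

end TSUMaux

open TSUMaux

theorem cl_turnsum : S_turnsum := by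
  intro Q h0 hρ
  set R := (Q.map (algebraMap ℝ ℂ)).roots with hR
  have hQ : Q ≠ 0 := by
    rintro rfl
    simp at h0
  have hmap : Q.map (algebraMap ℝ ℂ) ≠ 0 :=
    (Polynomial.map_ne_zero_iff (algebraMap ℝ ℂ).injective).2 hQ
  have hroot : ∀ z ∈ R, aeval z Q = 0 := by
    intro z hz
    have := (Polynomial.mem_roots hmap).1 hz
    rw [IsRoot, eval_map] at this
    rwa [aeval_def]
  have hcj : ∀ z ∈ R, starRingEnd ℂ z ∈ R := by
    intro z hz
    have h := Multiset.mem_map_of_mem (starRingEnd ℂ) hz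
    rwa [conj_roots Q] at h
  have homr : om = Complex.exp ((2 * Real.pi / 3 : ℝ) * Complex.I) := by
    have e1 : (2 * Real.pi / 3 : ℝ) = Real.pi - Real.pi / 3 := by ring
    rw [Complex.exp_mul_I, ← Complex.ofReal_cos, ← Complex.ofReal_sin, e1, Real.cos_pi_sub,
      Real.sin_pi_sub, Real.cos_pi_div_three, Real.sin_pi_div_three]
    apply Complex.ext
    · simp [om]
      norm_num
    · simp [om]
  have hpos : ∀ z ∈ R, z ≠ 0 → z.arg ≠ 2 * Real.pi / 3 := by
    intro z hz hz0 ha
    apply hρ ‖z‖ (norm_pos_iff.2 hz0)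
    have h1 := Complex.norm_mul_exp_arg_mul_I z
    rw [ha, ← homr] at h1
    rw [h1]
    exact hroot z hz
  have hall : ∀ z ∈ R, z ≠ 0 ∧ |z.arg| ≠ 2 * Real.pi / 3 := by
    intro z hz
    have hz0 : z ≠ 0 := by
      rintro rfl
      apply h0
      have h1 := hroot 0 hz
      rw [aeval_def, eval₂_at_zero] at h1
      rw [← coeff_zero_eq_eval_zero]
      simpa using h1
    refine ⟨hz0, ?_⟩
    intro h1
    rcases abs_eq (by positivity) |>.1 h1 with h2 | h2
    · exact hpos z hz hz0 h2
    · have hne : z.arg ≠ Real.pi := by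
        rw [h2]; have := Real.pi_pos; intro h; linarith
      apply hpos _ (hcj z hz) (by simpa using hz0)
      rw [Complex.arg_conj, if_neg hne, h2]; ring
  have h1 := sum_pair R hall
  have h2 : (R.map fun ξ => (-(om ^ 2 * (starRingEnd ℂ ξ))).arg).sum =
      (R.map fun ξ => (-(om ^ 2 * ξ)).arg).sum := by
    conv_rhs => rw [hR, ← conj_roots Q, Multiset.map_map]
    rfl
  rw [h2] at h1
  have h3 : Multiset.card R = Q.natDegree := by
    rw [hR, IsAlgClosed.card_roots_eq_natDegree, natDegree_map]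
  rw [h3] at h1
  linarith

end W96CL
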